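import Pool.Agent.Y574.Z7.C2
import Pool.Agent.Y17.N.Defs

/-!
# Z17N-C2 (helper274): evaluation of the divisor sums, `d = 1`

Variant of the file of helper574 (Z700-C2) for `n = q pr P`.
-/

set_option autoImplicit false

namespace Pool.Agent.Y274.ZN

open Finset Pool.Agent.Z700 Pool.Agent.Y17.N
open Pool.Agent.Y574.Z7 (div_split sum_local chp chp_mul chp_one chp_self chp_nd chp_sq chp_pm jac_eq
  jac_prod chp_prod dvd_fac psp_eq wq alt_sum one_sum two_pt nd4 fac_D fac_D2 chp_D mem_D)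

/-! ### elementary facts -/

theorem sp2 {p : ℕ} (h : Sp p) : p ≠ 2 := by rintro rfl; have := h.2.1; omega
theorem sp3 {p : ℕ} (h : Sp p) : p ≠ 3 := by rintro rfl; have := h.2.1; omega
theorem sp7 {p : ℕ} (h : Sp p) : p ≠ 7 := by rintro rfl; have := h.2.1; omega
theorem qr2 {q : ℕ} (h : Qr q) : q ≠ 2 := by rintro rfl; have := h.2.1; omega
theorem qr7 {q : ℕ} (h : Qr q) : q ≠ 7 := by rintro rfl; have := h.2.1; omega

theorem q_notMem {q : ℕ} {P : Finset ℕ} (hq : Qr q) (hP : ∀ p ∈ P, Sp p) : q ∉ P := fun h => by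
  have h1 := (hP q h).2.1
  have h2 := hq.2.1
  omega

theorem prp_pos {P : Finset ℕ} (hP : ∀ p ∈ P, Sp p) : 0 < pr P :=
  Finset.prod_pos fun p hp => (hP p hp).1.pos

theorem prp_mod {P : Finset ℕ} (hP : ∀ p ∈ P, Sp p) : pr P % 8 = 1 := by
  classical
  induction P using Finset.induction_on with
  | empty => rfl
  | insert p P hp ih =>
    have h1 := ih fun q hq => hP q (Finset.mem_insert_of_mem hq)
    have h2 := (hP p (Finset.mem_insert_self _ _)).2.1
    unfold pr at h1 ⊢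
    rw [Finset.prod_insert hp, Nat.mul_mod, h1, h2]

theorem n_pos {q : ℕ} {P : Finset ℕ} (hq : Qr q) (hP : ∀ p ∈ P, Sp p) : 0 < q * pr P :=
  Nat.mul_pos hq.1.pos (prp_pos hP)

theorem n_mod {q : ℕ} {P : Finset ℕ} (hq : Qr q) (hP : ∀ p ∈ P, Sp p) : (q * pr P) % 8 = 3 := by
  rw [Nat.mul_mod, hq.2.1, prp_mod hP]

theorem prod_R {q : ℕ} {P : Finset ℕ} (hq : Qr q) (hP : ∀ p ∈ P, Sp p) :
    ∏ r ∈ insert q P, r = q * pr P := by
  rw [Finset.prod_insert (q_notMem hq hP)]; rfl

theorem mem_prime {q : ℕ} {P : Finset ℕ} (hq : Qr q) (hP : ∀ p ∈ P, Sp p) {r : ℕ}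
    (hr : r ∈ insert q P) : r.Prime := by
  rcases Finset.mem_insert.1 hr with rfl | hr
  · exact hq.1
  · exact (hP r hr).1

theorem mem_ne2 {q : ℕ} {P : Finset ℕ} (hq : Qr q) (hP : ∀ p ∈ P, Sp p) {r : ℕ}
    (hr : r ∈ insert q P) : r ≠ 2 := by
  rcases Finset.mem_insert.1 hr with rfl | hr
  · exact qr2 hq
  · exact sp2 (hP r hr)

theorem mem_ne7 {q : ℕ} {P : Finset ℕ} (hq : Qr q) (hP : ∀ p ∈ P, Sp p) {r : ℕ}
    (hr : r ∈ insert q P) : r ≠ 7 := by
  rcases Finset.mem_insert.1 hr with rfl | hr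
  · exact qr7 hq
  · exact sp7 (hP r hr)

theorem prime_dvd_n {q : ℕ} {P : Finset ℕ} (hq : Qr q) (hP : ∀ p ∈ P, Sp p) {r : ℕ} (hr : r.Prime) :
    r ∣ q * pr P ↔ r ∈ insert q P := by
  rw [← prod_R hq hP]
  constructor
  · intro h
    obtain ⟨p, hp, hd⟩ := (Prime.dvd_finsetProd_iff hr.prime _).1 h
    rwa [(Nat.prime_dvd_prime_iff_eq hr (mem_prime hq hP hp)).1 hd]
  · exact fun h => Finset.dvd_prod_of_mem _ h

theorem mem_dvd {q : ℕ} {P : Finset ℕ} (hq : Qr q) (hP : ∀ p ∈ P, Sp p) {r : ℕ}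
    (hr : r ∈ insert q P) : r ∣ q * pr P := (prime_dvd_n hq hP (mem_prime hq hP hr)).2 hr

theorem seven_nd {q : ℕ} {P : Finset ℕ} (hq : Qr q) (hP : ∀ p ∈ P, Sp p) : ¬ 7 ∣ q * pr P :=
  fun h => mem_ne7 hq hP ((prime_dvd_n hq hP (by norm_num)).1 h) rfl

theorem sq_nd {q : ℕ} {P : Finset ℕ} (hq : Qr q) (hP : ∀ p ∈ P, Sp p) {r : ℕ}
    (hr : r ∈ insert q P) : ¬ r * r ∣ q * pr P := by
  intro h
  have hp := mem_prime hq hP hr
  rw [← prod_R hq hP, ← Finset.mul_prod_erase _ _ hr] at h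
  have h2 : r ∣ ∏ p ∈ (insert q P).erase r, p := Nat.dvd_of_mul_dvd_mul_left hp.pos h
  obtain ⟨s, hs, hd⟩ := (Prime.dvd_finsetProd_iff hp.prime _).1 h2
  have hs2 := Finset.mem_erase.1 hs
  exact hs2.1 ((Nat.prime_dvd_prime_iff_eq hp (mem_prime hq hP hs2.2)).1 hd).symm

/-! ### the product of the symbols -/

/-- the product of the symbols -/
def Psi (R : Finset ℕ) (n : ℕ) : ℤ := ∏ r ∈ R, chp r n

theorem Psi_one (R : Finset ℕ) : Psi R 1 = 1 := by
  unfold Psi
  exact Finset.prod_eq_one fun q _ => chp_one q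

theorem Psi_mul (R : Finset ℕ) (a b : ℕ) : Psi R (a * b) = Psi R a * Psi R b := by
  unfold Psi
  rw [← Finset.prod_mul_distrib]
  exact Finset.prod_congr rfl fun q _ => chp_mul q a b

theorem Psi_pow (R : Finset ℕ) (a k : ℕ) : Psi R (a ^ k) = Psi R a ^ k := by
  induction k with
  | zero => rw [pow_zero, pow_zero, Psi_one]
  | succ k ih => rw [pow_succ, Psi_mul, ih, pow_succ]

theorem Psi_prod (R : Finset ℕ) (s : Finset ℕ) (f : ℕ → ℕ) :
    Psi R (∏ l ∈ s, f l) = ∏ l ∈ s, Psi R (f l) := by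
  classical
  induction s using Finset.induction_on with
  | empty => rw [Finset.prod_empty, Finset.prod_empty, Psi_one]
  | insert l s hl ih => rw [Finset.prod_insert hl, Finset.prod_insert hl, Psi_mul, ih]

/-- `Psi` is completely multiplicative -/
theorem Psi_fac (R : Finset ℕ) (Q : Finset ℕ) (n : ℕ) (hn : n ≠ 0) (h : n.primeFactors ⊆ Q) :
    Psi R n = ∏ l ∈ Q, Psi R l ^ n.factorization l := by
  have h1 : ∏ l ∈ n.primeFactors, l ^ n.factorization l = n := by
    have h2 := Nat.prod_factorization_pow_eq_self hn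
    unfold Finsupp.prod at h2
    rwa [Nat.support_factorization] at h2
  have h2 : Psi R n = ∏ l ∈ n.primeFactors, Psi R l ^ n.factorization l := by
    conv_lhs => rw [← h1]
    rw [Psi_prod]
    exact Finset.prod_congr rfl fun l _ => Psi_pow R l _
  rw [h2]
  refine Finset.prod_subset h fun l _ hl => ?_
  rw [Finsupp.notMem_support_iff.1 (by rwa [Nat.support_factorization]), pow_zero]

theorem Psi_sq {R : Finset ℕ} (hR : ∀ r ∈ R, r.Prime) {n : ℕ} (hn : n ≠ 0) :
    Psi R n * Psi R n = 1 := by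
  unfold Psi
  rw [← Finset.prod_mul_distrib]
  exact Finset.prod_eq_one fun q hq => chp_sq (hR q hq) hn

theorem Psi_pm {R : Finset ℕ} (hR : ∀ r ∈ R, r.Prime) {n : ℕ} (hn : n ≠ 0) :
    Psi R n = 1 ∨ Psi R n = -1 := mul_self_eq_one_iff.1 (Psi_sq hR hn)

/-- the value of `Psi` away from `n` -/
theorem Psi_nd {q : ℕ} {P : Finset ℕ} (hq : Qr q) (hP : ∀ p ∈ P, Sp p) {a : ℕ}
    (h : ∀ r ∈ insert q P, ¬ r ∣ a) : Psi (insert q P) a = jacobiSym a (q * pr P) := by
  rw [← prod_R hq hP, jac_prod _ _ fun r hr => (mem_prime hq hP hr).ne_zero]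
  unfold Psi
  exact Finset.prod_congr rfl fun r hr => chp_nd (h r hr)

theorem odd_n {q : ℕ} {P : Finset ℕ} (hq : Qr q) (hP : ∀ p ∈ P, Sp p) : Odd (q * pr P) := by
  have := n_mod hq hP
  rw [Nat.odd_iff]; omega

/-- reciprocity -/
theorem recip {q : ℕ} {P : Finset ℕ} (hq : Qr q) (hP : ∀ p ∈ P, Sp p) {l : ℕ} (hl : Odd l) :
    jacobiSym (-((q * pr P : ℕ) : ℤ)) l = jacobiSym l (q * pr P) := by
  have hm := n_mod hq hP
  have h4 : (q * pr P) % 4 = 3 := by omega
  rw [jacobiSym.neg _ hl]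
  have h2 : l % 4 = 1 ∨ l % 4 = 3 := by
    rw [Nat.odd_iff] at hl; omega
  rcases h2 with h2 | h2
  · rw [ZMod.χ₄_nat_one_mod_four h2, one_mul,
      jacobiSym.quadratic_reciprocity_one_mod_four' (odd_n hq hP) h2]
  · rw [ZMod.χ₄_nat_three_mod_four h2, jacobiSym.quadratic_reciprocity_three_mod_four h4 h2]
    ring

theorem Psi_l {q : ℕ} {P : Finset ℕ} (hq : Qr q) (hP : ∀ p ∈ P, Sp p) {l : ℕ} (hl : l.Prime)
    (h2 : l ≠ 2) (h : l ∉ insert q P) :
    Psi (insert q P) l = jacobiSym (-((q * pr P : ℕ) : ℤ)) l := by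
  rw [recip hq hP (hl.odd_of_ne_two h2), Psi_nd hq hP]
  intro r hr hd
  rw [(Nat.prime_dvd_prime_iff_eq (mem_prime hq hP hr) hl).1 hd] at hr
  exact h hr

theorem jac2 {p : ℕ} (h : Sp p) : jacobiSym 2 p = 1 := by
  have hp := h.1.odd_of_ne_two (sp2 h)
  rw [jacobiSym.at_two hp, ZMod.χ₈_nat_eq_if_mod_eight]
  have := h.2.1
  rw [if_neg (by omega), if_pos (by left; omega)]

theorem jac2q {q : ℕ} (h : Qr q) : jacobiSym 2 q = -1 := by
  have hp := h.1.odd_of_ne_two (qr2 h)
  rw [jacobiSym.at_two hp, ZMod.χ₈_nat_eq_if_mod_eight]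
  have := h.2.1
  rw [if_neg (by omega), if_neg (by omega)]

theorem jac7 {p : ℕ} (h : Sp p) : jacobiSym 7 p = 1 := by
  have := h.2.1
  have h1 := jacobiSym.quadratic_reciprocity_one_mod_four' (a := 7) (b := p) (by decide) (by omega)
  have h2 : jacobiSym (p : ℤ) 7 = 1 := by
    rw [jacobiSym.mod_left]
    rcases h.2.2 with h3 | h3 | h3
    · have : (p : ℤ) % ((7 : ℕ) : ℤ) = 1 := by omega
      rw [this]; norm_num
    · have : (p : ℤ) % ((7 : ℕ) : ℤ) = 2 := by omega
      rw [this]; norm_num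
    · have : (p : ℤ) % ((7 : ℕ) : ℤ) = 4 := by omega
      rw [this]; norm_num
  rw [← h2, ← h1]; rfl

theorem jac7q {q : ℕ} (h : Qr q) : jacobiSym 7 q = 1 := by
  have := h.2.1
  have h1 := jacobiSym.quadratic_reciprocity_three_mod_four (a := 7) (b := q) (by norm_num) (by omega)
  have h2 : jacobiSym (q : ℤ) 7 = -1 := by
    rw [jacobiSym.mod_left]
    rcases h.2.2 with h3 | h3 | h3
    · have : (q : ℤ) % ((7 : ℕ) : ℤ) = 3 := by omega
      rw [this]; norm_num
    · have : (q : ℤ) % ((7 : ℕ) : ℤ) = 5 := by omega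
      rw [this]; norm_num
    · have : (q : ℤ) % ((7 : ℕ) : ℤ) = 6 := by omega
      rw [this]; norm_num
  rw [h2, neg_neg] at h1
  exact h1

theorem Psi_two {q : ℕ} {P : Finset ℕ} (hq : Qr q) (hP : ∀ p ∈ P, Sp p) :
    Psi (insert q P) 2 = -1 := by
  unfold Psi
  rw [Finset.prod_insert (q_notMem hq hP),
    chp_nd (fun hd => (qr2 hq) ((Nat.prime_dvd_prime_iff_eq hq.1 Nat.prime_two).1 hd))]
  rw [Finset.prod_eq_one]
  · rw [mul_one]
    exact jac2q hq
  · intro p hp
    rw [chp_nd (fun hd => (sp2 (hP p hp))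
      ((Nat.prime_dvd_prime_iff_eq (hP p hp).1 Nat.prime_two).1 hd))]
    exact jac2 (hP p hp)

theorem Psi_seven {q : ℕ} {P : Finset ℕ} (hq : Qr q) (hP : ∀ p ∈ P, Sp p) :
    Psi (insert q P) 7 = 1 := by
  unfold Psi
  rw [Finset.prod_insert (q_notMem hq hP),
    chp_nd (fun hd => (qr7 hq) ((Nat.prime_dvd_prime_iff_eq hq.1 (by norm_num)).1 hd))]
  rw [Finset.prod_eq_one]
  · rw [mul_one]
    exact jac7q hq
  · intro p hp
    rw [chp_nd (fun hd => (sp7 (hP p hp))
      ((Nat.prime_dvd_prime_iff_eq (hP p hp).1 (by norm_num)).1 hd))]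
    exact jac7 (hP p hp)

/-- reciprocity for the primes dividing `n` -/
theorem Psi_r {q : ℕ} {P : Finset ℕ} (hq : Qr q) (hP : ∀ p ∈ P, Sp p) {l : ℕ}
    (hl : l ∈ insert q P) : Psi (insert q P) l = chp l (q * pr P) := by
  rw [← prod_R hq hP, chp_prod]
  unfold Psi
  refine Finset.prod_congr rfl fun r hr => ?_
  have hlp := mem_prime hq hP hl
  have hrp := mem_prime hq hP hr
  rcases eq_or_ne r l with rfl | hne
  · rfl
  · have h1 : ¬ r ∣ l := fun h => hne ((Nat.prime_dvd_prime_iff_eq hrp hlp).1 h)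
    have h2 : ¬ l ∣ r := fun h => hne ((Nat.prime_dvd_prime_iff_eq hlp hrp).1 h).symm
    rw [chp_nd h1, chp_nd h2]
    have hro : Odd r := hrp.odd_of_ne_two (mem_ne2 hq hP hr)
    have hlo : Odd l := hlp.odd_of_ne_two (mem_ne2 hq hP hl)
    rcases Finset.mem_insert.1 hl with rfl | hl
    · rcases Finset.mem_insert.1 hr with rfl | hr
      · exact absurd rfl hne
      · have h8 := (hP r hr).2.1
        exact (jacobiSym.quadratic_reciprocity_one_mod_four (by omega) hlo).symm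
    · have h8 := (hP l hl).2.1
      exact jacobiSym.quadratic_reciprocity_one_mod_four (by omega) hro

/-! ### the local weights -/

/-- the local weight at `q` -/
def wz (S T q i j : ℕ) : ℤ :=
  if q ∣ T then (if i = S.factorization q ∧ j = 0 then chp q S
      else if i = 0 ∧ j = T.factorization q then -chp q T else 0) else -chp q T

theorem psq_eq {q S T a a' : ℕ} (hp : q.Prime) (hS : S ≠ 0) (hT : T ≠ 0) (hd : q ∣ S ↔ q ∣ T)
    (ha : a ∣ S) (ha' : a' ∣ T) :
    psq q a a' (S / a) (T / a') =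
      chp q a * chp q a' * wz S T q (a.factorization q) (a'.factorization q) := by
  obtain ⟨Y, rfl⟩ := ha
  obtain ⟨X, rfl⟩ := ha'
  have a0 : a ≠ 0 := left_ne_zero_of_mul hS
  have Y0 : Y ≠ 0 := right_ne_zero_of_mul hS
  have b0 : a' ≠ 0 := left_ne_zero_of_mul hT
  have X0 : X ≠ 0 := right_ne_zero_of_mul hT
  rw [Nat.mul_div_cancel_left _ (Nat.pos_of_ne_zero a0), Nat.mul_div_cancel_left _ (Nat.pos_of_ne_zero b0)]
  rw [dvd_fac hp hS, dvd_fac hp hT, Nat.factorization_mul a0 Y0, Nat.factorization_mul b0 X0,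
    Finsupp.add_apply, Finsupp.add_apply] at hd
  unfold psq wz
  rw [jac_eq hp, jac_eq hp]
  simp only [dvd_fac hp a0, dvd_fac hp X0, dvd_fac hp (mul_ne_zero b0 Y0),
    dvd_fac hp (mul_ne_zero a0 X0), dvd_fac hp hT, Nat.factorization_mul a0 Y0, Nat.factorization_mul b0 X0,
    Nat.factorization_mul b0 Y0, Nat.factorization_mul a0 X0, Finsupp.add_apply, chp_mul]
  have s1 := chp_sq hp a0
  have s2 := chp_sq hp b0
  generalize a.factorization q = i at *
  generalize Y.factorization q = y at *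
  generalize a'.factorization q = j at *
  generalize X.factorization q = x at *
  generalize chp q a = α at *
  generalize chp q a' = α' at *
  generalize chp q Y = υ at *
  generalize chp q X = ξ at *
  split_ifs
  all_goals first
    | (exfalso; omega)
    | (linear_combination (-(α' * υ)) * s1)
    | (linear_combination (α * ξ) * s2)
    | ring1

/-- all the primes -/
def QQ (R : Finset ℕ) (S T : ℕ) : Finset ℕ := insert 2 (insert 7 (R ∪ (S * T).primeFactors))

/-- the local weight at the primes of `n` -/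
def wr (q : ℕ) (S T l i j : ℕ) : ℤ := if l = q then wz S T l i j else wq S T l i j

/-- the local weights -/
def Wl (q : ℕ) (P : Finset ℕ) (S T l i j : ℕ) : ℤ :=
  Psi (insert q P) l ^ (i + j) * (if l ∈ insert q P then wr q S T l i j else 1) *
    (if l = 2 then (if 1 ≤ i then 1 else 0) else 1) * (if l = 7 then (if 1 ≤ j then 1 else 0) else 1)

theorem mem_QQ2 {R : Finset ℕ} {S T : ℕ} : 2 ∈ QQ R S T := Finset.mem_insert_self _ _

theorem mem_QQ7 {R : Finset ℕ} {S T : ℕ} : 7 ∈ QQ R S T :=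
  Finset.mem_insert_of_mem (Finset.mem_insert_self _ _)

theorem sub_QQ {R : Finset ℕ} {S T : ℕ} : R ⊆ QQ R S T := fun _ hq =>
  Finset.mem_insert_of_mem (Finset.mem_insert_of_mem (Finset.mem_union_left _ hq))

theorem pf_QQ {R : Finset ℕ} {S T : ℕ} : (S * T).primeFactors ⊆ QQ R S T := fun _ hq =>
  Finset.mem_insert_of_mem (Finset.mem_insert_of_mem (Finset.mem_union_right _ hq))

theorem QQ_prime {R : Finset ℕ} (hR : ∀ r ∈ R, r.Prime) {S T : ℕ} : ∀ l ∈ QQ R S T, l.Prime := by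
  intro l hl
  unfold QQ at hl
  rcases Finset.mem_insert.1 hl with rfl | hl
  · exact Nat.prime_two
  rcases Finset.mem_insert.1 hl with rfl | hl
  · norm_num
  rcases Finset.mem_union.1 hl with hl | hl
  · exact hR l hl
  · exact Nat.prime_of_mem_primeFactors hl

theorem dvd_iff' {n r S T : ℕ} (hST : S + T = n) (hr : r ∣ n) : r ∣ S ↔ r ∣ T := by
  rw [← hST] at hr
  exact ⟨fun h1 => (Nat.dvd_add_right h1).1 hr, fun h1 => (Nat.dvd_add_left h1).1 hr⟩

theorem term_eq {q : ℕ} {P : Finset ℕ} (hq : Qr q) (hP : ∀ p ∈ P, Sp p) {S T : ℕ} (hS : S ≠ 0)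
    (hT : T ≠ 0) (hST : S + T = q * pr P) {a a' : ℕ} (ha : a ∣ S) (ha' : a' ∣ T) :
    (if 2 ∣ a then (if 7 ∣ a' then
      psq q a a' (S / a) (T / a') * ∏ p ∈ P, psp p a a' (S / a) (T / a') else 0) else 0) =
      ∏ l ∈ QQ (insert q P) S T, Wl q P S T l (a.factorization l) (a'.factorization l) := by
  classical
  have a0 : a ≠ 0 := by rintro rfl; exact hS (zero_dvd_iff.1 ha)
  have b0 : a' ≠ 0 := by rintro rfl; exact hT (zero_dvd_iff.1 ha')
  have hsa : a.primeFactors ⊆ QQ (insert q P) S T :=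
    (Nat.primeFactors_mono (ha.mul_right T) (mul_ne_zero hS hT)).trans pf_QQ
  have hsb : a'.primeFactors ⊆ QQ (insert q P) S T :=
    (Nat.primeFactors_mono (ha'.mul_left S) (mul_ne_zero hS hT)).trans pf_QQ
  unfold Wl
  rw [Finset.prod_mul_distrib, Finset.prod_mul_distrib, Finset.prod_mul_distrib]
  have e1 : ∏ l ∈ QQ (insert q P) S T, Psi (insert q P) l ^ (a.factorization l + a'.factorization l) =
      Psi (insert q P) a * Psi (insert q P) a' := by
    rw [Psi_fac (insert q P) (QQ (insert q P) S T) a a0 hsa,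
      Psi_fac (insert q P) (QQ (insert q P) S T) a' b0 hsb, ← Finset.prod_mul_distrib]
    exact Finset.prod_congr rfl fun l _ => pow_add _ _ _
  have e2 : ∏ l ∈ QQ (insert q P) S T,
      (if l ∈ insert q P then wr q S T l (a.factorization l) (a'.factorization l) else 1) =
      ∏ l ∈ insert q P, wr q S T l (a.factorization l) (a'.factorization l) := by
    rw [Finset.prod_ite_mem, Finset.inter_eq_right.2 sub_QQ]
  have e3 : ∏ l ∈ QQ (insert q P) S T,
      (if l = 2 then (if 1 ≤ a.factorization l then (1 : ℤ) else 0) else 1) =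
      if 2 ∣ a then 1 else 0 := by
    rw [Finset.prod_ite_eq' (QQ (insert q P) S T) 2
      (fun l => if 1 ≤ a.factorization l then (1 : ℤ) else 0), if_pos mem_QQ2]
    simp only [dvd_fac Nat.prime_two a0]
  have e4 : ∏ l ∈ QQ (insert q P) S T,
      (if l = 7 then (if 1 ≤ a'.factorization l then (1 : ℤ) else 0) else 1) =
      if 7 ∣ a' then 1 else 0 := by
    rw [Finset.prod_ite_eq' (QQ (insert q P) S T) 7
      (fun l => if 1 ≤ a'.factorization l then (1 : ℤ) else 0), if_pos mem_QQ7]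
    simp only [dvd_fac (by norm_num : Nat.Prime 7) b0]
  rw [e1, e2, e3, e4]
  have e5 : psq q a a' (S / a) (T / a') * ∏ p ∈ P, psp p a a' (S / a) (T / a') =
      Psi (insert q P) a * Psi (insert q P) a' *
        ∏ l ∈ insert q P, wr q S T l (a.factorization l) (a'.factorization l) := by
    have h3 := q_notMem hq hP
    unfold Psi
    rw [← Finset.prod_mul_distrib, ← Finset.prod_mul_distrib, Finset.prod_insert h3,
      psq_eq hq.1 hS hT (dvd_iff' hST (mem_dvd hq hP (Finset.mem_insert_self _ _))) ha ha']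
    congr 1
    · unfold wr
      rw [if_pos rfl]
    · refine Finset.prod_congr rfl fun p hp => ?_
      unfold wr
      rw [if_neg (fun h : p = q => h3 (by rw [← h]; exact hp))]
      exact psp_eq (hP p hp).1 (sp3 (hP p hp)) hS hT
        (dvd_iff' hST (mem_dvd hq hP (Finset.mem_insert_of_mem hp))) ha ha'
  rw [e5]
  split_ifs <;> simp

theorem WN_eq {q : ℕ} {P : Finset ℕ} (hq : Qr q) (hP : ∀ p ∈ P, Sp p) {S T : ℕ} (hS : S ≠ 0)
    (hT : T ≠ 0) (hST : S + T = q * pr P) :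
    ∑ a ∈ S.divisors.filter (2 ∣ ·), ∑ a' ∈ T.divisors.filter (7 ∣ ·),
      psq q a a' (S / a) (T / a') * ∏ p ∈ P, psp p a a' (S / a) (T / a') =
    ∏ l ∈ QQ (insert q P) S T, ∑ i ∈ range (S.factorization l + 1),
      ∑ j ∈ range (T.factorization l + 1), Wl q P S T l i j := by
  rw [← sum_local (Wl q P S T) (QQ (insert q P) S T) (QQ_prime fun r hr => mem_prime hq hP hr) S T hS hT
    (fun l hl hd => pf_QQ (Nat.mem_primeFactors.2 ⟨hl, hd.mul_right T, mul_ne_zero hS hT⟩))
    (fun l hl hd => pf_QQ (Nat.mem_primeFactors.2 ⟨hl, hd.mul_left S, mul_ne_zero hS hT⟩))]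
  rw [Finset.sum_filter]
  refine Finset.sum_congr rfl fun a ha => ?_
  rw [Finset.sum_filter]
  have ha1 := Nat.dvd_of_mem_divisors ha
  have h1 : ∀ a' ∈ T.divisors,
      ∏ l ∈ QQ (insert q P) S T, Wl q P S T l (a.factorization l) (a'.factorization l) =
      (if 2 ∣ a then (if 7 ∣ a' then
      psq q a a' (S / a) (T / a') * ∏ p ∈ P, psp p a a' (S / a) (T / a') else 0) else 0) :=
    fun a' ha' => (term_eq hq hP hS hT hST ha1 (Nat.dvd_of_mem_divisors ha')).symm
  rw [Finset.sum_congr rfl h1]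
  by_cases h2 : 2 ∣ a
  · simp only [if_pos h2]
  · simp only [if_neg h2, Finset.sum_const_zero]

/-! ### the local factors -/

theorem fac_n {q : ℕ} {P : Finset ℕ} (hq : Qr q) (hP : ∀ p ∈ P, Sp p) {l : ℕ}
    (hl : l ∈ insert q P) : (q * pr P).factorization l = 1 := by
  have hp := mem_prime hq hP hl
  have h0 : q * pr P ≠ 0 := (n_pos hq hP).ne'
  apply le_antisymm
  · by_contra h
    push Not at h
    have h1 := (hp.pow_dvd_iff_le_factorization h0).2 h
    exact sq_nd hq hP hl (by rwa [sq] at h1)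
  · exact (dvd_fac hp h0).1 (mem_dvd hq hP hl)

theorem chp_n {q : ℕ} {P : Finset ℕ} (hq : Qr q) (hP : ∀ p ∈ P, Sp p) {l : ℕ}
    (hl : l ∈ insert q P) : chp l (q * pr P) = jacobiSym ((q * pr P / l : ℕ) : ℤ) l := by
  unfold chp
  rw [fac_n hq hP hl, pow_one]

theorem hh_eq {q : ℕ} {P : Finset ℕ} (hq : Qr q) (hP : ∀ p ∈ P, Sp p) {S T l : ℕ} (hS : S ≠ 0)
    (hT : T ≠ 0) (hl : l ∈ insert q P) : hh (q * pr P) (4 * S * T) l =
      ZMod.χ₄ l * (Psi (insert q P) l) ^ (S.factorization l + T.factorization l) *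
        (chp l S * chp l T) := by
  have hp := mem_prime hq hP hl
  have h2 := mem_ne2 hq hP hl
  have hodd := hp.odd_of_ne_two h2
  have hsq : chp l (q * pr P) * chp l (q * pr P) = 1 := chp_sq hp (n_pos hq hP).ne'
  have hD : jacobiSym ((4 * S * T / l ^ (4 * S * T).factorization l : ℕ) : ℤ) l = chp l S * chp l T :=
    chp_D hp
  unfold hh
  rw [jacobiSym.neg _ hodd, jacobiSym.neg _ hodd, Nat.cast_mul, jacobiSym.mul_left, hD,
    ← chp_n hq hP hl, ← fac_D hS hT hp h2, Psi_r hq hP hl]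
  split_ifs with h
  · obtain ⟨k, hk⟩ := h
    rw [hk, ← two_mul, pow_mul, sq, hsq, one_pow]
    ring
  · rw [Nat.not_even_iff_odd] at h
    obtain ⟨k, hk⟩ := h
    rw [hk, pow_succ, pow_mul, sq, hsq, one_pow]
    ring

theorem facq_eq {q : ℕ} {P : Finset ℕ} (hq : Qr q) (hP : ∀ p ∈ P, Sp p) {S T : ℕ} (hS : S ≠ 0)
    (hT : T ≠ 0) : fac (q * pr P) (4 * S * T) q =
      1 - Psi (insert q P) q ^ (S.factorization q + T.factorization q) * (chp q S * chp q T) := by
  have h8 := hq.2.1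
  unfold fac
  rw [if_pos (Dvd.intro _ rfl), hh_eq hq hP hS hT (Finset.mem_insert_self _ _),
    ZMod.χ₄_nat_three_mod_four (by omega)]
  ring

theorem facp_eq {q : ℕ} {P : Finset ℕ} (hq : Qr q) (hP : ∀ p ∈ P, Sp p) {S T l : ℕ} (hS : S ≠ 0)
    (hT : T ≠ 0) (hl : l ∈ P) : fac (q * pr P) (4 * S * T) l =
      1 + Psi (insert q P) l ^ (S.factorization l + T.factorization l) * (chp l S * chp l T) := by
  have h8 := (hP l hl).2.1
  unfold fac
  rw [if_pos (mem_dvd hq hP (Finset.mem_insert_of_mem hl)),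
    hh_eq hq hP hS hT (Finset.mem_insert_of_mem hl), ZMod.χ₄_nat_one_mod_four (by omega)]
  ring

theorem facg_eq {q : ℕ} {P : Finset ℕ} (hq : Qr q) (hP : ∀ p ∈ P, Sp p) {S T l : ℕ} (hS : S ≠ 0)
    (hT : T ≠ 0) (hp : l.Prime) (h2 : l ≠ 2) (hl : l ∉ insert q P) :
    fac (q * pr P) (4 * S * T) l =
      ∑ j ∈ range (S.factorization l + T.factorization l + 1), Psi (insert q P) l ^ j := by
  unfold fac
  rw [if_neg (fun h => hl ((prime_dvd_n hq hP hp).1 h)), fac_D hS hT hp h2, Psi_l hq hP hp h2 hl]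

/-! ### the local sums -/

/-- the sum of the local weights -/
def Ls (q : ℕ) (P : Finset ℕ) (S T l : ℕ) : ℤ :=
  ∑ i ∈ range (S.factorization l + 1), ∑ j ∈ range (T.factorization l + 1), Wl q P S T l i j

theorem Ls_two {q : ℕ} {P : Finset ℕ} (hq : Qr q) (hP : ∀ p ∈ P, Sp p) {S T : ℕ} (hT : Odd T) :
    Ls q P S T 2 = if Odd (S.factorization 2) then -1 else 0 := by
  have h2 : (2 : ℕ) ∉ insert q P := fun h => mem_ne2 hq hP h rfl
  have hT2 : T.factorization 2 = 0 := Nat.factorization_eq_zero_of_not_dvd (fun h => by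
      have := (Nat.odd_iff.1 hT); omega)
  unfold Ls
  rw [hT2, zero_add, ← alt_sum]
  refine Finset.sum_congr rfl fun i _ => ?_
  rw [Finset.sum_range_one]
  unfold Wl
  rw [if_neg h2, if_pos rfl, if_neg (by norm_num : (2 : ℕ) ≠ 7), Psi_two hq hP, add_zero]
  ring

theorem Ls_seven {q : ℕ} {P : Finset ℕ} (hq : Qr q) (hP : ∀ p ∈ P, Sp p) {S T : ℕ}
    (hS7 : ¬ 7 ∣ S) : Ls q P S T 7 = (T.factorization 7 : ℤ) := by
  have h7 : (7 : ℕ) ∉ insert q P := fun h => mem_ne7 hq hP h rfl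
  unfold Ls
  rw [Nat.factorization_eq_zero_of_not_dvd hS7, zero_add, Finset.sum_range_one, ← one_sum]
  refine Finset.sum_congr rfl fun j _ => ?_
  unfold Wl
  rw [if_neg h7, if_pos rfl, if_neg (by norm_num : (7 : ℕ) ≠ 2), Psi_seven hq hP, one_pow]
  ring

theorem Ls_gen {q : ℕ} {P : Finset ℕ} (hq : Qr q) (hP : ∀ p ∈ P, Sp p) {S T : ℕ} (hS : S ≠ 0)
    (hT : T ≠ 0) (hST : S + T = q * pr P) {l : ℕ} (hp : l.Prime) (h2 : l ≠ 2) (h7 : l ≠ 7)
    (hl : l ∉ insert q P) : Ls q P S T l = fac (q * pr P) (4 * S * T) l := by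
  rw [facg_eq hq hP hS hT hp h2 hl]
  unfold Ls Wl
  simp only [if_neg hl, if_neg h2, if_neg h7, mul_one]
  have h0 : S.factorization l = 0 ∨ T.factorization l = 0 := by
    by_contra h
    push Not at h
    have h1 := (dvd_fac hp hS).2 (by omega)
    have h2 := (dvd_fac hp hT).2 (by omega)
    exact hl ((prime_dvd_n hq hP hp).1 (hST ▸ dvd_add h1 h2))
  rcases h0 with h0 | h0
  · rw [h0, zero_add, Finset.sum_range_one, zero_add]
    exact Finset.sum_congr rfl fun j _ => by rw [zero_add]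
  · rw [h0, zero_add, add_zero]
    exact Finset.sum_congr rfl fun i _ => by rw [Finset.sum_range_one, add_zero]

/-- the sum of the symbols at a prime dividing `n` but not `T` -/
theorem chp_ST {n p S T : ℕ} (hpp : p.Prime) (hST : S + T = n) (hpn : p ∣ n) (h : ¬ p ∣ T)
    (h2 : p ≠ 2) : chp p S = ZMod.χ₄ p * chp p T := by
  have hd := dvd_iff' hST hpn
  rw [chp_nd h, chp_nd (fun h1 => h (hd.1 h1))]
  have hodd := hpp.odd_of_ne_two h2
  have e1 : jacobiSym (S : ℤ) p = jacobiSym (-(T : ℤ)) p := by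
    apply jacobiSym.mod_left'
    have h3 : (p : ℤ) ∣ (S : ℤ) - (-(T : ℤ)) := by
      have h4 : (p : ℤ) ∣ ((n : ℕ) : ℤ) := Int.natCast_dvd_natCast.2 hpn
      rw [← hST] at h4
      push_cast at h4
      rwa [sub_neg_eq_add]
    exact (Int.modEq_iff_dvd.2 h3).symm
  rw [e1, jacobiSym.neg _ hodd]

theorem Ls_r {q : ℕ} {P : Finset ℕ} (hq : Qr q) (hP : ∀ p ∈ P, Sp p) {S T : ℕ} (hS : S ≠ 0)
    (hT : T ≠ 0) (hST : S + T = q * pr P) {p : ℕ} (hp : p ∈ insert q P) :
    Ls q P S T p = (Psi (insert q P) p ^ S.factorization p * chp p S) *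
      (if p ∣ T then fac (q * pr P) (4 * S * T) p else 1) := by
  have hpn := mem_dvd hq hP hp
  have hd := dvd_iff' hST hpn
  have hpp := mem_prime hq hP hp
  have h2 := mem_ne2 hq hP hp
  have hPs : Psi (insert q P) p ^ S.factorization p * Psi (insert q P) p ^ S.factorization p = 1 := by
    rw [← mul_pow, Psi_sq (fun r hr => mem_prime hq hP hr) hpp.ne_zero, one_pow]
  unfold Ls Wl
  simp only [if_pos hp, if_neg (mem_ne2 hq hP hp), if_neg (mem_ne7 hq hP hp), mul_one]
  rcases Finset.mem_insert.1 hp with rfl | hpP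
  · -- the prime `q`
    simp only [wr, if_true]
    unfold wz
    by_cases h : p ∣ T
    · rw [if_pos h, facq_eq hq hP hS hT]
      simp only [if_pos h]
      have s1 := (dvd_fac hpp hS).1 (hd.2 h)
      have t1 := (dvd_fac hpp hT).1 h
      rw [two_pt (S.factorization p) (T.factorization p) (S.factorization p) 0 0 (T.factorization p)
        le_rfl (Nat.zero_le _) (Nat.zero_le _) le_rfl (Or.inl (by omega)) (chp p S) (-chp p T)
        (fun i j => Psi (insert p P) p ^ (i + j))]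
      simp only [add_zero, zero_add]
      have c1 := chp_sq hpp hS
      rw [pow_add]
      linear_combination (Psi (insert p P) p ^ T.factorization p * chp p T * (chp p S * chp p S)) * hPs +
        (Psi (insert p P) p ^ T.factorization p * chp p T) * c1
    · rw [if_neg h]
      simp only [if_neg h]
      rw [Nat.factorization_eq_zero_of_not_dvd h,
        Nat.factorization_eq_zero_of_not_dvd (fun h1 => h (hd.1 h1))]
      simp only [zero_add, Finset.sum_range_one, pow_zero, one_mul, mul_one]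
      have h8 := hq.2.1
      rw [chp_ST hpp hST hpn h h2, ZMod.χ₄_nat_three_mod_four (by omega)]
      ring
  · have hne : p ≠ q := fun h => q_notMem hq hP (h ▸ hpP)
    simp only [wr, if_neg hne]
    unfold wq
    simp only [if_neg (sp3 (hP p hpP))]
    by_cases h : p ∣ T
    · rw [if_pos h, facp_eq hq hP hS hT hpP]
      simp only [if_pos h]
      have s1 := (dvd_fac hpp hS).1 (hd.2 h)
      have t1 := (dvd_fac hpp hT).1 h
      rw [two_pt (S.factorization p) (T.factorization p) (S.factorization p) 0 0 (T.factorization p)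
        le_rfl (Nat.zero_le _) (Nat.zero_le _) le_rfl (Or.inl (by omega)) (chp p S) (chp p T)
        (fun i j => Psi (insert q P) p ^ (i + j))]
      simp only [add_zero, zero_add]
      have c1 := chp_sq hpp hS
      rw [pow_add]
      linear_combination (-(Psi (insert q P) p ^ T.factorization p * chp p T * (chp p S * chp p S))) *
        hPs - (Psi (insert q P) p ^ T.factorization p * chp p T) * c1
    · rw [if_neg h]
      simp only [if_neg h]
      rw [Nat.factorization_eq_zero_of_not_dvd h,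
        Nat.factorization_eq_zero_of_not_dvd (fun h1 => h (hd.1 h1))]
      simp only [zero_add, Finset.sum_range_one, pow_zero, one_mul, mul_one]
      have h8 := (hP p hpP).2.1
      rw [chp_ST hpp hST hpn h h2, ZMod.χ₄_nat_one_mod_four (by omega), one_mul]

/-! ### the assembly -/

/-- the primes apart from `2` and `7` -/
def Q' (R : Finset ℕ) (S T : ℕ) : Finset ℕ := ((QQ R S T).erase 2).erase 7

theorem mem_Q' {R : Finset ℕ} (hR : ∀ r ∈ R, r.Prime) {S T l : ℕ} (h : l ∈ Q' R S T) :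
    l.Prime ∧ l ≠ 2 ∧ l ≠ 7 ∧ (l ∉ R → l ∈ (S * T).primeFactors) := by
  unfold Q' at h
  have h1 := Finset.mem_erase.1 h
  have h2 := Finset.mem_erase.1 h1.2
  refine ⟨QQ_prime hR l h2.2, h2.1, h1.1, fun h3 => ?_⟩
  unfold QQ at h2
  rcases Finset.mem_insert.1 h2.2 with h4 | h4
  · exact absurd h4 h2.1
  rcases Finset.mem_insert.1 h4 with h4 | h4
  · exact absurd h4 h1.1
  rcases Finset.mem_union.1 h4 with h4 | h4
  · exact absurd h4 h3
  · exact h4

theorem R_sub_Q' {q : ℕ} {P : Finset ℕ} (hq : Qr q) (hP : ∀ p ∈ P, Sp p) {S T : ℕ} :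
    insert q P ⊆ Q' (insert q P) S T := fun _ hp =>
  Finset.mem_erase.2 ⟨mem_ne7 hq hP hp, Finset.mem_erase.2 ⟨mem_ne2 hq hP hp, sub_QQ hp⟩⟩

/-- the local factor or one -/
def Ff (q : ℕ) (P : Finset ℕ) (S T l : ℕ) : ℤ :=
  if l ∈ (4 * S * T).primeFactors then fac (q * pr P) (4 * S * T) l else 1

/-- the local sums away from `2` and `7` -/
theorem Ls_Q' {q : ℕ} {P : Finset ℕ} (hq : Qr q) (hP : ∀ p ∈ P, Sp p) {S T : ℕ} (hS : S ≠ 0)
    (hT : T ≠ 0) (hST : S + T = q * pr P) {l : ℕ} (hl : l ∈ Q' (insert q P) S T) :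
    Ls q P S T l = (if l ∈ insert q P then Psi (insert q P) l ^ S.factorization l * chp l S else 1) *
      Ff q P S T l := by
  obtain ⟨hp, h2, h7, hm⟩ := mem_Q' (fun r hr => mem_prime hq hP hr) hl
  have hD := mem_D hS hT hp h2
  by_cases hlR : l ∈ insert q P
  · have hd := dvd_iff' hST (mem_dvd hq hP hlR)
    have hD' : l ∈ (4 * S * T).primeFactors ↔ l ∣ T := by rw [hD, hd, or_self]
    rw [if_pos hlR, Ls_r hq hP hS hT hST hlR]
    unfold Ff
    simp only [hD']
  · rw [if_neg hlR, one_mul]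
    have h4 : l ∈ (4 * S * T).primeFactors := by
      have h5 := Nat.mem_primeFactors.1 (hm hlR)
      exact hD.2 ((Nat.Prime.dvd_mul hp).1 h5.2.1)
    rw [Ls_gen hq hP hS hT hST hp h2 h7 hlR]
    unfold Ff
    rw [if_pos h4]

/-- the product of the local factors -/
theorem prod_Ff {q : ℕ} {P : Finset ℕ} {S T : ℕ} (hS : S ≠ 0) (hT : T ≠ 0) :
    ∏ l ∈ Q' (insert q P) S T, Ff q P S T l =
      ∏ l ∈ ((4 * S * T).primeFactors.erase 2).erase 7, fac (q * pr P) (4 * S * T) l := by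
  classical
  unfold Ff
  rw [Finset.prod_ite_mem]
  refine Finset.prod_congr ?_ fun _ _ => rfl
  ext l
  rw [Finset.mem_inter]
  constructor
  · rintro ⟨h1, h2⟩
    unfold Q' at h1
    have h3 := Finset.mem_erase.1 h1
    have h4 := Finset.mem_erase.1 h3.2
    exact Finset.mem_erase.2 ⟨h3.1, Finset.mem_erase.2 ⟨h4.1, h2⟩⟩
  · intro h
    have h3 := Finset.mem_erase.1 h
    have h4 := Finset.mem_erase.1 h3.2
    refine ⟨?_, h4.2⟩
    unfold Q'
    refine Finset.mem_erase.2 ⟨h3.1, Finset.mem_erase.2 ⟨h4.1, pf_QQ ?_⟩⟩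
    have h5 := Nat.prime_of_mem_primeFactors h4.2
    exact Nat.mem_primeFactors.2 ⟨h5, (Nat.Prime.dvd_mul h5).2 ((mem_D hS hT h5 h4.1).1 h4.2),
      mul_ne_zero hS hT⟩

theorem odd_alt (k : ℕ) : ∑ j ∈ range (2 * k + 1 + 1), (-1 : ℤ) ^ j = 0 := by
  induction k with
  | zero => simp [Finset.sum_range_succ]
  | succ k ih =>
    rw [show 2 * (k + 1) + 1 + 1 = (2 * k + 1 + 1) + 1 + 1 by ring, Finset.sum_range_succ,
      Finset.sum_range_succ, ih, pow_succ (-1 : ℤ) (2 * k + 1 + 1)]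
    ring

/-- the sign -/
theorem sign_eq {q : ℕ} {P : Finset ℕ} (hq : Qr q) (hP : ∀ p ∈ P, Sp p) {S T : ℕ} (hS : S ≠ 0)
    (hT : T ≠ 0) (hST : S + T = q * pr P) (hodd : Odd (S.factorization 2))
    (hF : ∀ l ∈ Q' (insert q P) S T, Ff q P S T l ≠ 0) :
    ∏ l ∈ insert q P, (Psi (insert q P) l ^ S.factorization l * chp l S) = -1 := by
  classical
  have hR : ∀ r ∈ insert q P, r.Prime := fun r hr => mem_prime hq hP hr
  have e1 : Psi (insert q P) S = ∏ l ∈ insert q P, chp l S := rfl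
  have hsub : S.primeFactors ⊆ QQ (insert q P) S T :=
    (Nat.primeFactors_mono (dvd_mul_right S T) (mul_ne_zero hS hT)).trans pf_QQ
  have e2 : Psi (insert q P) S = -∏ l ∈ insert q P, Psi (insert q P) l ^ S.factorization l := by
    rw [Psi_fac (insert q P) (QQ (insert q P) S T) S hS hsub,
      ← Finset.mul_prod_erase _ _ (mem_QQ2 (R := insert q P) (S := S) (T := T)),
      Psi_two hq hP, hodd.neg_one_pow,
      ← Finset.mul_prod_erase _ _
        (Finset.mem_erase.2 ⟨by norm_num, mem_QQ7 (R := insert q P) (S := S) (T := T)⟩ :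
        7 ∈ (QQ (insert q P) S T).erase 2), Psi_seven hq hP, one_pow, one_mul, neg_one_mul]
    congr 1
    symm
    refine Finset.prod_subset (R_sub_Q' hq hP) fun l hl hn => ?_
    obtain ⟨hp, h2, h7, hm⟩ := mem_Q' hR hl
    have hD := mem_D hS hT hp h2
    have h4 : l ∈ (4 * S * T).primeFactors := by
      have h5 := Nat.mem_primeFactors.1 (hm hn)
      exact hD.2 ((Nat.Prime.dvd_mul hp).1 h5.2.1)
    have h5 := hF l hl
    unfold Ff at h5
    rw [if_pos h4, facg_eq hq hP hS hT hp h2 hn] at h5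
    by_cases hlS : l ∣ S
    · have hT0 : T.factorization l = 0 := by
        apply Nat.factorization_eq_zero_of_not_dvd
        intro h
        exact hn ((prime_dvd_n hq hP hp).1 (hST ▸ dvd_add hlS h))
      rw [hT0, add_zero] at h5
      rcases Psi_pm hR hp.ne_zero with h6 | h6
      · rw [h6, one_pow]
      · rw [h6] at h5 ⊢
        rcases Nat.even_or_odd (S.factorization l) with h7 | h7
        · exact h7.neg_one_pow
        · exfalso
          apply h5
          obtain ⟨k, hk⟩ := h7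
          rw [hk]
          exact odd_alt k
    · rw [Nat.factorization_eq_zero_of_not_dvd hlS, pow_zero]
  have c2 : (∏ l ∈ insert q P, Psi (insert q P) l ^ S.factorization l) *
      (∏ l ∈ insert q P, Psi (insert q P) l ^ S.factorization l) = 1 := by
    rw [← Finset.prod_mul_distrib]
    refine Finset.prod_eq_one fun l hl => ?_
    rw [← mul_pow, Psi_sq hR (hR l hl).ne_zero, one_pow]
  rw [Finset.prod_mul_distrib, ← e1, e2]
  linear_combination (-1) * c2

/-- C2 -/
theorem t_C2 : Pool.Agent.Y17.N.S_C2 := by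
  classical
  intro q P hq hP T hTo h7T hlt
  obtain ⟨S, hSdef⟩ : ∃ S, S = q * pr P - T := ⟨_, rfl⟩
  unfold WN
  rw [one_mul, ← hSdef]
  have hST : S + T = q * pr P := by omega
  have hS : S ≠ 0 := by omega
  have hT : T ≠ 0 := by rintro rfl; exact absurd hTo (by decide)
  have hS7 : ¬ 7 ∣ S := fun h => seven_nd hq hP (hST ▸ dvd_add h h7T)
  have e0 : ∀ l, ∑ i ∈ range (S.factorization l + 1), ∑ j ∈ range (T.factorization l + 1),
      Wl q P S T l i j = Ls q P S T l := fun l => rfl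
  rw [WN_eq hq hP hS hT hST]
  simp only [e0]
  rw [← Finset.mul_prod_erase _ _ (mem_QQ2 (R := insert q P) (S := S) (T := T)),
    ← Finset.mul_prod_erase _ _
      (Finset.mem_erase.2 ⟨by norm_num, mem_QQ7 (R := insert q P) (S := S) (T := T)⟩ :
        7 ∈ (QQ (insert q P) S T).erase 2), Ls_two hq hP hTo, Ls_seven hq hP hS7]
  have e1 : ∏ l ∈ ((QQ (insert q P) S T).erase 2).erase 7, Ls q P S T l =
      (∏ l ∈ insert q P, (Psi (insert q P) l ^ S.factorization l * chp l S)) *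
        ∏ l ∈ Q' (insert q P) S T, Ff q P S T l := by
    have e2 : ((QQ (insert q P) S T).erase 2).erase 7 = Q' (insert q P) S T := rfl
    rw [e2, Finset.prod_congr rfl fun l (hl : l ∈ Q' (insert q P) S T) => Ls_Q' hq hP hS hT hST hl,
      Finset.prod_mul_distrib, Finset.prod_ite_mem, Finset.inter_eq_right.2 (R_sub_Q' hq hP)]
  rw [e1]
  unfold loc
  have h7D : (4 * S * T).factorization 7 = T.factorization 7 := by
    rw [fac_D hS hT (by norm_num) (by norm_num), Nat.factorization_eq_zero_of_not_dvd hS7, zero_add]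
  rw [← prod_Ff hS hT, h7D, fac_D2 hS hTo]
  by_cases hodd : Odd (S.factorization 2)
  · rw [if_pos hodd, if_pos (by obtain ⟨k, hk⟩ := hodd; exact ⟨k + 1, by omega⟩)]
    by_cases hF : ∀ l ∈ Q' (insert q P) S T, Ff q P S T l ≠ 0
    · rw [sign_eq hq hP hS hT hST hodd hF]
      ring
    · push Not at hF
      obtain ⟨l, hl, hl0⟩ := hF
      rw [Finset.prod_eq_zero hl hl0]
      ring
  · rw [if_neg hodd, if_neg (by
      intro h
      apply hodd
      obtain ⟨k, hk⟩ := h
      exact ⟨k - 1, by omega⟩)]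
    ring

end Pool.Agent.Y274.ZN
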